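import Pool.Agent.Q181.AS.Center

/-!
# Average shadowing with full measure center implies mixing or positive entropy

The definitions are in `Pool/Agent/Q181/AS/Shadow.lean`.
-/

set_option autoImplicit false

namespace Pool.Agent.Results.MP_090ff9_an.PositiveEntropy

open Pool.Agent.Q181.AS Dynamics

/-- **Positive answer to Q1.**  Let `f` be a continuous selfmap of a compact metric space with the
average shadowing property, the asymptotic average shadowing property or the almost specification
property, and with measure center the whole space.  Then `f` is topologically mixing or has
positive topological entropy; more precisely the entropy is positive as soon as the space has at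
least two points. -/
theorem result {X : Type*} [MetricSpace X] [CompactSpace X] [MeasurableSpace X] [BorelSpace X]
    (f : X → X) (hf : Continuous f) (hP : ASP f ∨ AASP f ∨ AlmostSpecification f)
    (hc : measureCenter f = Set.univ) :
    (TopMixing f ∨ 0 < coverEntropy f Set.univ) ∧
      (Nontrivial X → 0 < coverEntropy f Set.univ) := by
  refine ⟨?_, fun _ => entropy_pos_of_center hf hP hc⟩
  rcases subsingleton_or_nontrivial X with h | h
  · left
    intro U V _ _ hU hV
    obtain ⟨u, hu⟩ := hU
    obtain ⟨v, hv⟩ := hV
    exact ⟨0, fun n _ => ⟨v, ⟨u, hu, Subsingleton.elim _ _⟩, hv⟩⟩
  · exact Or.inr (entropy_pos_of_center hf hP hc)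

end Pool.Agent.Results.MP_090ff9_an.PositiveEntropy
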